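import Pool.Agent.Helper47.FLG.Alg2

/-!
# Packet FLG-DES (project of helper47): the finite design
-/

set_option autoImplicit false

namespace Pool.Agent.Helper47.FLG

open Finset Pool.Agent.Helper47.RFn

namespace DES34

/-- the 21 components and the value of the quadratic form -/
def quad (r0101 r0202 r0303 r1212 r1313 r2323 r0102 r0103 r0112 r0113 r0123 r0203 r0212 r0213
    r0223 r0312 r0313 r0323 r1213 r1223 r1323 p01 p02 p03 p12 p13 p23 : ℝ) : ℝ :=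
  r0101 * p01 ^ 2 + r0202 * p02 ^ 2 + r0303 * p03 ^ 2 + r1212 * p12 ^ 2 + r1313 * p13 ^ 2 +
    r2323 * p23 ^ 2 +
    2 * (r0102 * p01 * p02 + r0103 * p01 * p03 + r0112 * p01 * p12 + r0113 * p01 * p13 +
      r0123 * p01 * p23 + r0203 * p02 * p03 + r0212 * p02 * p12 + r0213 * p02 * p13 +
      r0223 * p02 * p23 + r0312 * p03 * p12 + r0313 * p03 * p13 + r0323 * p03 * p23 +
      r1213 * p12 * p13 + r1223 * p12 * p23 + r1323 * p13 * p23)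

lemma lc4 {n : ℕ} (F : (Fin n → ℝ) → ℝ)
    (hF : ∀ (a a' : Fin n → ℝ) (s t : ℝ), F (fun i => s * a i + t * a' i) = s * F a + t * F a')
    (e : Fin 4 → Fin n → ℝ) (a b c d : ℝ) :
    F (lc e a b c d) = a * F (e 0) + b * F (e 1) + c * F (e 2) + d * F (e 3) := by
  have h : lc e a b c d = fun i => 1 * (fun i => 1 * (fun i => a * e 0 i + b * e 1 i) i +
      c * e 2 i) i + d * e 3 i := by
    funext i
    unfold lc
    ring
  rw [h, hF, hF, hF]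
  ring

end DES34

open DES34

theorem g_DES (hR4T : G_R4T) : G_DES := by
  intro n e S v hv hS
  obtain ⟨hlin, _, hsym, hK, _, _, _, _, _, _, _, hqf, _⟩ := hR4T n
  have hlin' := hlin S
  have hs := hsym S hS
  have h0 : ∀ a c d, R4 S a a c d = 0 := by
    intro a c d
    have := (hs a a c d).1
    linarith
  -- expansion of the first pair
  have hp1 : ∀ (a0 a1 a2 a3 b0 b1 b2 b3 : ℝ) (x y : Fin n → ℝ),
      R4 S (lc e a0 a1 a2 a3) (lc e b0 b1 b2 b3) x y =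
        (a0 * b1 - a1 * b0) * R4 S (e 0) (e 1) x y + (a0 * b2 - a2 * b0) * R4 S (e 0) (e 2) x y +
        (a0 * b3 - a3 * b0) * R4 S (e 0) (e 3) x y + (a1 * b2 - a2 * b1) * R4 S (e 1) (e 2) x y +
        (a1 * b3 - a3 * b1) * R4 S (e 1) (e 3) x y + (a2 * b3 - a3 * b2) * R4 S (e 2) (e 3) x y := by
    intro a0 a1 a2 a3 b0 b1 b2 b3 x y
    rw [lc4 (fun u => R4 S u (lc e b0 b1 b2 b3) x y) (fun a a' s t => (hlin' a a' _ _ _ s t).1)]
    rw [lc4 (fun u => R4 S (e 0) u x y) (fun a a' s t => (hlin' a a' _ _ _ s t).2.1),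
      lc4 (fun u => R4 S (e 1) u x y) (fun a a' s t => (hlin' a a' _ _ _ s t).2.1),
      lc4 (fun u => R4 S (e 2) u x y) (fun a a' s t => (hlin' a a' _ _ _ s t).2.1),
      lc4 (fun u => R4 S (e 3) u x y) (fun a a' s t => (hlin' a a' _ _ _ s t).2.1)]
    rw [h0, h0, h0, h0, (hs (e 1) (e 0) x y).1, (hs (e 2) (e 0) x y).1, (hs (e 3) (e 0) x y).1,
      (hs (e 2) (e 1) x y).1, (hs (e 3) (e 1) x y).1, (hs (e 3) (e 2) x y).1]
    ring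
  have hp2 : ∀ (x y : Fin n → ℝ) (a0 a1 a2 a3 b0 b1 b2 b3 : ℝ),
      R4 S x y (lc e a0 a1 a2 a3) (lc e b0 b1 b2 b3) =
        (a0 * b1 - a1 * b0) * R4 S x y (e 0) (e 1) + (a0 * b2 - a2 * b0) * R4 S x y (e 0) (e 2) +
        (a0 * b3 - a3 * b0) * R4 S x y (e 0) (e 3) + (a1 * b2 - a2 * b1) * R4 S x y (e 1) (e 2) +
        (a1 * b3 - a3 * b1) * R4 S x y (e 1) (e 3) +
        (a2 * b3 - a3 * b2) * R4 S x y (e 2) (e 3) := by
    intro x y a0 a1 a2 a3 b0 b1 b2 b3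
    rw [(hs x y _ _).2.2.1, hp1, (hs (e 0) (e 1) x y).2.2.1, (hs (e 0) (e 2) x y).2.2.1,
      (hs (e 0) (e 3) x y).2.2.1, (hs (e 1) (e 2) x y).2.2.1, (hs (e 1) (e 3) x y).2.2.1,
      (hs (e 2) (e 3) x y).2.2.1]
  have hKe : ∀ (a0 a1 a2 a3 b0 b1 b2 b3 : ℝ), K2 S (lc e a0 a1 a2 a3) (lc e b0 b1 b2 b3) =
      quad (R4 S (e 0) (e 1) (e 0) (e 1)) (R4 S (e 0) (e 2) (e 0) (e 2))
        (R4 S (e 0) (e 3) (e 0) (e 3)) (R4 S (e 1) (e 2) (e 1) (e 2))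
        (R4 S (e 1) (e 3) (e 1) (e 3)) (R4 S (e 2) (e 3) (e 2) (e 3))
        (R4 S (e 0) (e 1) (e 0) (e 2)) (R4 S (e 0) (e 1) (e 0) (e 3))
        (R4 S (e 0) (e 1) (e 1) (e 2)) (R4 S (e 0) (e 1) (e 1) (e 3))
        (R4 S (e 0) (e 1) (e 2) (e 3)) (R4 S (e 0) (e 2) (e 0) (e 3))
        (R4 S (e 0) (e 2) (e 1) (e 2)) (R4 S (e 0) (e 2) (e 1) (e 3))
        (R4 S (e 0) (e 2) (e 2) (e 3)) (R4 S (e 0) (e 3) (e 1) (e 2))
        (R4 S (e 0) (e 3) (e 1) (e 3)) (R4 S (e 0) (e 3) (e 2) (e 3))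
        (R4 S (e 1) (e 2) (e 1) (e 3)) (R4 S (e 1) (e 2) (e 2) (e 3))
        (R4 S (e 1) (e 3) (e 2) (e 3))
        (a0 * b1 - a1 * b0) (a0 * b2 - a2 * b0) (a0 * b3 - a3 * b0) (a1 * b2 - a2 * b1)
        (a1 * b3 - a3 * b1) (a2 * b3 - a3 * b2) := by
    intro a0 a1 a2 a3 b0 b1 b2 b3
    rw [hK, hp1]
    simp only [hp2]
    rw [(hs (e 0) (e 2) (e 0) (e 1)).2.2.1, (hs (e 0) (e 3) (e 0) (e 1)).2.2.1,
      (hs (e 1) (e 2) (e 0) (e 1)).2.2.1, (hs (e 1) (e 3) (e 0) (e 1)).2.2.1,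
      (hs (e 2) (e 3) (e 0) (e 1)).2.2.1, (hs (e 0) (e 3) (e 0) (e 2)).2.2.1,
      (hs (e 1) (e 2) (e 0) (e 2)).2.2.1, (hs (e 1) (e 3) (e 0) (e 2)).2.2.1,
      (hs (e 2) (e 3) (e 0) (e 2)).2.2.1, (hs (e 1) (e 2) (e 0) (e 3)).2.2.1,
      (hs (e 1) (e 3) (e 0) (e 3)).2.2.1, (hs (e 2) (e 3) (e 0) (e 3)).2.2.1,
      (hs (e 1) (e 3) (e 1) (e 2)).2.2.1, (hs (e 2) (e 3) (e 1) (e 2)).2.2.1,
      (hs (e 2) (e 3) (e 1) (e 3)).2.2.1]
    unfold quad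
    ring
  have hbi : R4 S (e 0) (e 1) (e 2) (e 3) + R4 S (e 0) (e 3) (e 1) (e 2) -
      R4 S (e 0) (e 2) (e 1) (e 3) = 0 := by
    have h1 := (hs (e 0) (e 1) (e 2) (e 3)).2.2.2
    rw [(hs (e 1) (e 2) (e 0) (e 3)).2.2.1, (hs (e 2) (e 0) (e 1) (e 3)).1] at h1
    linarith
  have hq := hqf S hS (e 0) (e 1) (e 2) (e 3)
  rw [hK, hK, hK, hK] at hq
  rw [hq]
  unfold Dj
  simp only [hKe]
  generalize R4 S (e 0) (e 1) (e 0) (e 1) = x1 at *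
  generalize R4 S (e 0) (e 2) (e 0) (e 2) = x2 at *
  generalize R4 S (e 0) (e 3) (e 0) (e 3) = x3 at *
  generalize R4 S (e 1) (e 2) (e 1) (e 2) = x4 at *
  generalize R4 S (e 1) (e 3) (e 1) (e 3) = x5 at *
  generalize R4 S (e 2) (e 3) (e 2) (e 3) = x6 at *
  generalize R4 S (e 0) (e 1) (e 0) (e 2) = x7 at *
  generalize R4 S (e 0) (e 1) (e 0) (e 3) = x8 at *
  generalize R4 S (e 0) (e 1) (e 1) (e 2) = x9 at *
  generalize R4 S (e 0) (e 1) (e 1) (e 3) = x10 at *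
  generalize R4 S (e 0) (e 1) (e 2) (e 3) = x11 at *
  generalize R4 S (e 0) (e 2) (e 0) (e 3) = x12 at *
  generalize R4 S (e 0) (e 2) (e 1) (e 2) = x13 at *
  generalize R4 S (e 0) (e 2) (e 1) (e 3) = x14 at *
  generalize R4 S (e 0) (e 2) (e 2) (e 3) = x15 at *
  generalize R4 S (e 0) (e 3) (e 1) (e 2) = x16 at *
  generalize R4 S (e 0) (e 3) (e 1) (e 3) = x17 at *
  generalize R4 S (e 0) (e 3) (e 2) (e 3) = x18 at *
  generalize R4 S (e 1) (e 2) (e 1) (e 3) = x19 at *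
  generalize R4 S (e 1) (e 2) (e 2) (e 3) = x20 at *
  generalize R4 S (e 1) (e 3) (e 2) (e 3) = x21 at *
  have hv4 : v ^ 4 = 1 / 4 := by
    have : v ^ 4 = (v ^ 2) ^ 2 := by ring
    rw [this, hv]; norm_num
  unfold quad
  ring_nf
  simp only [hv4]
  ring_nf
  linarith

end Pool.Agent.Helper47.FLG
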